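import Pool.Agent.H22V.BU.Basic

/-!
# MP_5bd9ee_al (helper22): a group with cofinite centralizer topology which is not an FNI-group

The group is the free group of rank four and exponent `p` for a large prime `p`.
-/

set_option autoImplicit false

namespace Pool.Agent.Results.MP_5bd9ee_al.NotFNI

open Pool.Agent.TH54.BU Pool.Agent.H22V.BU

/-- for all large primes `p` there is a four-generated infinite group of exponent `p` in which all
centralizers of nontrivial elements are finite, with a subgroup `H` which is not normal and has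
infinite index in its normalizer -/
theorem main : ∃ p0 : ℕ, ∀ p : ℕ, p.Prime → p0 ≤ p → ∃ (G : Type) (_ : Group G),
    (∀ g : G, g ^ p = 1) ∧ (∃ f : Fin 4 → G, Subgroup.closure (Set.range f) = ⊤) ∧
    (∀ g : G, g ≠ 1 → (Subgroup.centralizer {g} : Set G).Finite) ∧
    ∃ H : Subgroup G, ¬ H.Normal ∧
      Infinite (Subgroup.normalizer (H : Set G) ⧸ H.subgroupOf (Subgroup.normalizer (H : Set G))) := by
  obtain ⟨p0, hp0⟩ := burnside
  refine ⟨p0, fun p hp hpp => ?_⟩
  have hB := hp0 p hp hpp
  refine ⟨FB (Fin 4) p, inferInstance, FB.pow, ⟨gen, ?_⟩, fun g hg => cent_finite hp hB hg, ?_⟩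
  · -- generation
    rw [eq_top_iff]
    rintro x -
    obtain ⟨w, rfl⟩ := QuotientGroup.mk_surjective x
    induction w using FreeGroup.induction_on with
    | C1 => exact Subgroup.one_mem _
    | of i => exact Subgroup.subset_closure ⟨i, rfl⟩
    | inv_of i h => exact Subgroup.inv_mem _ h
    | mul u v hu hv => exact Subgroup.mul_mem _ hu hv
  -- the retraction onto the subgroup of the first three generators
  let r : FB (Fin 4) p →* FB (Fin 4) p := lft FB.pow (fun i => if i = 3 then 1 else gen i)
  -- the quotient of rank two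
  let q : FB (Fin 4) p →* FB (Fin 2) p :=
    lft FB.pow (fun i => if i = 1 then gen 0 else if i = 2 then gen 1 else 1)
  let s : FB (Fin 2) p →* FB (Fin 4) p :=
    lft FB.pow (fun i => if i = 0 then gen 1 else gen 2)
  have hr : ∀ i, r (gen i) = if i = 3 then 1 else gen i := lft_gen FB.pow _
  have hq : ∀ i, q (gen i) = if i = 1 then gen 0 else if i = 2 then gen 1 else 1 :=
    lft_gen FB.pow _
  have hs : ∀ i, s (gen i) = if i = 0 then gen 1 else gen 2 := lft_gen FB.pow _
  have hrr : r.comp r = r := by
    apply hom_ext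
    intro i
    rw [MonoidHom.comp_apply, hr]
    by_cases h : i = 3
    · rw [if_pos h, map_one]
    · rw [if_neg h, hr, if_neg h]
  have hrr' : ∀ x, r (r x) = r x := fun x => DFunLike.congr_fun hrr x
  have hrs : r.comp s = s := by
    apply hom_ext
    intro i
    rw [MonoidHom.comp_apply, hs]
    fin_cases i
    · simp only [Fin.zero_eta, if_true, hr]
      rw [if_neg (by decide)]
    · simp only [Fin.mk_one, one_ne_zero, if_false, hr]
      rw [if_neg (by decide)]
  have hqs : q.comp s = MonoidHom.id _ := by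
    apply hom_ext
    intro i
    rw [MonoidHom.comp_apply, hs, MonoidHom.id_apply]
    fin_cases i
    · simp only [Fin.zero_eta, if_true, hq]
    · simp only [Fin.mk_one, one_ne_zero, if_false, hq]
      rw [if_neg (by decide), if_true]
  let H : Subgroup (FB (Fin 4) p) := r.range ⊓ q.ker
  have hHN : r.range ≤ Subgroup.normalizer (H : Set (FB (Fin 4) p)) := by
    intro n hn
    rw [Subgroup.mem_normalizer_iff]
    intro h
    constructor
    · rintro ⟨h1, h2⟩
      refine ⟨Subgroup.mul_mem _ (Subgroup.mul_mem _ hn h1) (Subgroup.inv_mem _ hn), ?_⟩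
      exact q.normal_ker.conj_mem h h2 n
    · rintro ⟨h1, h2⟩
      have h3 : h = n⁻¹ * (n * h * n⁻¹) * n := by group
      refine ⟨?_, ?_⟩
      · rw [h3]
        exact Subgroup.mul_mem _ (Subgroup.mul_mem _ (Subgroup.inv_mem _ hn) h1) hn
      · rw [h3]
        have := q.normal_ker.conj_mem _ h2 n⁻¹
        rwa [inv_inv] at this
  refine ⟨H, ?_, ?_⟩
  · -- `H` is not normal
    intro hN
    have h0 : gen 0 ∈ H := by
      refine ⟨⟨gen 0, ?_⟩, ?_⟩
      · rw [hr, if_neg (by decide)]
      · show q (gen 0) = 1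
        rw [hq, if_neg (by decide), if_neg (by decide)]
    obtain ⟨⟨y, hy⟩, -⟩ := hN.conj_mem _ h0 (gen 3)
    have h1 : r (gen 3 * gen 0 * (gen 3)⁻¹) = gen 3 * gen 0 * (gen 3)⁻¹ := by
      rw [← hy, hrr']
    rw [map_mul, map_mul, map_inv, hr, hr, if_pos rfl, if_neg (by decide), one_mul, inv_one,
      mul_one] at h1
    obtain ⟨A, _, z, φ, -, -, -, -, -, hcomm⟩ := hB (Fin 4)
    apply hcomm 3 0 (by decide)
    show (gen 3 : FB (Fin 4) p) * gen 0 = gen 0 * gen 3
    exact (mul_inv_eq_iff_eq_mul.1 h1.symm)
  · -- the index is infinite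
    have : Infinite (FB (Fin 2) p) := Burn.infinite hp hB
    have hsm : ∀ x, s x ∈ Subgroup.normalizer (H : Set (FB (Fin 4) p)) := fun x =>
      hHN ⟨s x, DFunLike.congr_fun hrs x⟩
    refine Infinite.of_injective
      (fun x : FB (Fin 2) p => (QuotientGroup.mk (⟨s x, hsm x⟩ : Subgroup.normalizer (H : Set _)) :
        Subgroup.normalizer (H : Set (FB (Fin 4) p)) ⧸
          H.subgroupOf (Subgroup.normalizer (H : Set _)))) ?_
    intro x y hxy
    have h1 := QuotientGroup.eq.1 hxy
    rw [Subgroup.mem_subgroupOf] at h1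
    have h2 : q ((s x)⁻¹ * s y) = 1 := h1.2
    have h3 : ∀ x, q (s x) = x := fun x => DFunLike.congr_fun hqs x
    rw [map_mul, map_inv, h3, h3] at h2
    exact inv_mul_eq_one.1 h2

/-- there are a group `G` in which every centralizer is finite or all of `G`, and a subgroup `H` of
`G` which is not normal in `G` and has infinite index in its normalizer -/
theorem result : ∃ (G : Type) (_ : Group G),
    (∀ g : G, (Subgroup.centralizer {g} : Set G).Finite ∨ Subgroup.centralizer {g} = ⊤) ∧
    ∃ H : Subgroup G, ¬ H.Normal ∧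
      Infinite (Subgroup.normalizer (H : Set G) ⧸
        H.subgroupOf (Subgroup.normalizer (H : Set G))) := by
  obtain ⟨p0, h⟩ := main
  obtain ⟨p, hpp, hp⟩ := Nat.exists_infinite_primes p0
  obtain ⟨G, iG, -, -, h1, h2⟩ := h p hp hpp
  refine ⟨G, iG, fun g => ?_, h2⟩
  by_cases hg : g = 1
  · right
    rw [hg, eq_top_iff]
    intro x _
    rw [Subgroup.mem_centralizer_iff]
    rintro y rfl
    simp
  · exact Or.inl (h1 g hg)

end Pool.Agent.Results.MP_5bd9ee_al.NotFNI
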